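import Pool.Agent.Helper32.SepL.Final

/-!
MP_5ae80a_co: the lower bound `f(r,k) ≥ u(r,k)` for every `k ≥ 5` and all large `r`
(`r ≥ 4 k` for odd `k`, `r ≥ k (k - 1)` for even `k`).
-/

namespace Pool.Agent.Results.MP_5ae80a_co.EachKLargeR

open Pool.Agent.Helper53.Sep Pool.Agent.Helper32.SepL Filter Topology

/-- For all `k ≥ 5` and all `r` with `r ≥ 4 k` (`k` odd) or `r ≥ k (k - 1)` (any `k`): every
family of `k` trees of maximum degree at most `r`, each containing `n` labelled vertices,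
satisfies `f(𝒯,n) ≥ u(r,k) n - k`. Hence `f(r,k,n) ≥ u(r,k) n - k` for all `n`, and every limit
`f(r,k)` of `f(r,k,n)/n` is at least `u(r,k)`. -/
theorem result (r k : ℕ) (hk : 5 ≤ k) (h : (Odd k ∧ 4 * k ≤ r) ∨ k * (k - 1) ≤ r) :
    (∀ (n : ℕ) (T : Fin k → LabelledTree r n), u r k * n - k ≤ sepNumber T) ∧
    (∀ n : ℕ, u r k * n - k ≤ sepMin r k n) ∧
    (∀ f : ℝ, Tendsto (fun n : ℕ => (sepMin r k n : ℝ) / n) atTop (𝓝 f) → u r k ≤ f) := by
  have hr : 2 ≤ r := by
    rcases h with h | h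
    · omega
    · have : k * 1 ≤ k * (k - 1) := Nat.mul_le_mul_left _ (by omega)
      omega
  exact ⟨fun n T => lower' hk h n T, fun n => le_sepMin hr (fun T => lower' hk h n T),
    fun _ hf => limit_le hr (fun n T => lower' hk h n T) hf⟩

end Pool.Agent.Results.MP_5ae80a_co.EachKLargeR
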