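import Pool.Agent.Helper53.Sep.Final

/-!
MP_5ae80a_co: the lower bound `f(r,k) ≥ u(r,k)` for `k = 3, 4, 5` and all `r ≥ 3`.
-/

namespace Pool.Agent.Results.MP_5ae80a_co.ThreeFourFiveTrees

open Pool.Agent.Helper53.Sep Filter Topology

/-- For all `r ≥ 3` and `k ∈ {3,4,5}`: every family of `k` trees of maximum degree at most `r`,
each containing `n` labelled vertices, satisfies `f(𝒯,n) ≥ u(r,k) n - k`. Hence
`f(r,k,n) ≥ u(r,k) n - k` for all `n`, and every limit `f(r,k)` of `f(r,k,n)/n` is at least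
`u(r,k)`. -/
theorem result (r k : ℕ) (hr : 3 ≤ r) (hk : k = 3 ∨ k = 4 ∨ k = 5) :
    (∀ (n : ℕ) (T : Fin k → LabelledTree r n), u r k * n - k ≤ sepNumber T) ∧
    (∀ n : ℕ, u r k * n - k ≤ sepMin r k n) ∧
    (∀ f : ℝ, Tendsto (fun n : ℕ => (sepMin r k n : ℝ) / n) atTop (𝓝 f) → u r k ≤ f) :=
  ⟨fun n T => lower hr hk n T, fun n => le_sepMin (by omega) (fun T => lower hr hk n T),
    fun _ hf => limit_le (by omega) (fun n T => lower hr hk n T) hf⟩

end Pool.Agent.Results.MP_5ae80a_co.ThreeFourFiveTrees
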